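import Pool.Agent.Run7.h676.NI.Iface

/-!
Piece CF of helper676's project NI (MP_e56c9f_al, question 1 for soluble groups).
Author: helper559.
-/

set_option autoImplicit false

open scoped commutatorElement
open Pool.Agent.Run7.h676.NI

namespace Run7.h559.NI

section act

variable {Γ : Type} [Group Γ] (M : Subgroup Γ) [M.Normal] (k : Type) [Field k]

/-- the additive functions on `M` -/
def Eh : Submodule k (M → k) where
  carrier := {f | ∀ x y, f (x * y) = f x + f y}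
  add_mem' := by
    intro f g hf hg x y
    simp only [Pi.add_apply]
    rw [hf x y, hg x y]
    ring
  zero_mem' := by
    intro x y
    simp
  smul_mem' := by
    intro c f hf x y
    simp only [Pi.smul_apply, smul_eq_mul]
    rw [hf x y]
    ring

/-- the action on `Eh` -/
def rh : Γ →* (Eh M k →ₗ[k] Eh M k) where
  toFun γ :=
    { toFun := fun f => ⟨fun m => f.1 (MulAut.conjNormal γ⁻¹ m), fun x y => by
        show f.1 (MulAut.conjNormal γ⁻¹ (x * y)) = _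
        rw [map_mul]; exact f.2 _ _⟩
      map_add' := fun f g => by ext m; rfl
      map_smul' := fun c f => by ext m; rfl }
  map_one' := by
    ext f m
    simp
  map_mul' γ δ := by
    ext f m
    simp only [mul_inv_rev, map_mul, MulAut.mul_apply]
    rfl

theorem rh_apply (γ : Γ) (f : Eh M k) (m : M) :
    (rh M k γ f).1 m = f.1 (MulAut.conjNormal γ⁻¹ m) := rfl

variable {M k}

omit [M.Normal] in
theorem Eh_one (f : Eh M k) : f.1 1 = 0 := by
  have := f.2 1 1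
  rw [mul_one] at this
  linear_combination -this

theorem Eh_inv (f : Eh M k) (m : M) : f.1 m⁻¹ = -f.1 m := by
  have h := f.2 m m⁻¹
  rw [mul_inv_cancel, Eh_one] at h
  linear_combination -h

end act

theorem aux (hSS : S_SS) (Γ : Type) [Group Γ] [Finite Γ] (p : ℕ) (L V M : Subgroup Γ)
    (hc : Cfg p L V) (hML : M ≤ L) (hMn : M.Normal)
    (hmin : ∀ M' : Subgroup Γ, M'.Normal → M' ≤ M → M' = ⊥ ∨ M' = M)
    (hcomm : ∀ x ∈ M, ∀ y ∈ M, x * y = y * x) (q : ℕ) (hqp : q.Prime) (hqM : q ∣ Nat.card M)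
    (k : Type) [Field k] [IsAlgClosed k] [CharP k q] (f₀ : M → k)
    (hf₀ : ∀ x y : M, f₀ (x * y) = f₀ x + f₀ y) (hf₀ne : f₀ ≠ 0) :
    ∃ v ∈ V, v ≠ 1 ∧ ∀ x ∈ L, ∀ m ∈ M,
      (x⁻¹ * (v * x * v⁻¹)) * m = m * (x⁻¹ * (v * x * v⁻¹)) := by
  classical
  have hq : Fact q.Prime := ⟨hqp⟩
  have hqV : ¬ q ∣ Nat.card V := by
    intro hd
    obtain ⟨v, hv⟩ := exists_prime_orderOf_dvd_card' q hd
    have h1 : (v : V) ^ p = 1 := by
      apply Subtype.ext
      rw [Subgroup.coe_pow]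
      exact hc.ea.exp v v.2
    have h2 : q ∣ p := by
      rw [← hv]
      exact orderOf_dvd_of_pow_eq_one h1
    have h3 : q = p := (Nat.prime_dvd_prime_iff_eq hqp hc.ea.prime).1 h2
    exact hc.cop (h3 ▸ hqM.trans (Subgroup.card_dvd_of_le hML))
  have hVk : ((Nat.card V : ℕ) : k) ≠ 0 := by
    rw [Ne, CharP.cast_eq_zero_iff k q]
    exact hqV
  have hnt : Nontrivial (Eh M k) := by
    refine ⟨⟨⟨f₀, hf₀⟩, 0, fun h => hf₀ne ?_⟩⟩
    exact congrArg Subtype.val h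
  -- no fixed vectors
  have hfix : ∀ f : Eh M k, (∀ v ∈ V, rh M k v f = f) → f = 0 := by
    intro f hf
    apply Subtype.ext
    funext m
    show f.1 m = 0
    let _ : CommGroup M := { (inferInstance : Group M) with
      mul_comm := fun x y => Subtype.ext (hcomm x x.2 y y.2) }
    have _ : Fintype V := Fintype.ofFinite V
    set ms : M := ∏ v : V, MulAut.conjNormal (v : Γ)⁻¹ m with hms
    have h1 : ∀ (s : Finset V) (g : V → M), f.1 (∏ v ∈ s, g v) = ∑ v ∈ s, f.1 (g v) := by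
      intro s g
      induction s using Finset.induction_on with
      | empty =>
        rw [Finset.prod_empty, Finset.sum_empty]
        exact Eh_one f
      | insert a s ha ih =>
        rw [Finset.prod_insert ha, Finset.sum_insert ha, ← ih]
        exact f.2 _ _
    have h2 : f.1 ms = (Nat.card V : k) * f.1 m := by
      rw [hms, h1]
      have h3 : ∀ v ∈ (Finset.univ : Finset V),
          f.1 (MulAut.conjNormal (v : Γ)⁻¹ m) = f.1 m := by
        intro v _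
        rw [← rh_apply, hf v v.2]
      rw [Finset.sum_congr rfl h3, Finset.sum_const, Finset.card_univ, nsmul_eq_mul,
        Nat.card_eq_fintype_card]
    have h3 : ∀ w : V, MulAut.conjNormal (w : Γ) ms = ms := by
      intro w
      rw [hms, map_prod]
      refine Fintype.prod_equiv (Equiv.mulRight w⁻¹) _ _ fun v => ?_
      rw [Equiv.coe_mulRight, ← MulAut.mul_apply, ← map_mul]
      congr 2
      simp
    have h4 : ((ms : M) : Γ) = 1 := by
      refine hc.fpf _ (hML ms.2) fun v hv => ?_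
      have h5 := congrArg Subtype.val (h3 ⟨v, hv⟩)
      rw [MulAut.conjNormal_apply] at h5
      have h6 : v * (ms : Γ) * v⁻¹ = ms := h5
      rw [mul_inv_eq_iff_eq_mul] at h6
      exact h6
    have h5 : ms = 1 := Subtype.ext h4
    rw [h5] at h2
    have h6 : f.1 1 = 0 := Eh_one f
    have h7 : (Nat.card V : k) * f.1 m = 0 := by rw [← h2]; exact h6
    exact (mul_eq_zero.1 h7).resolve_left hVk
  obtain ⟨v, hv, hv1, f, hf0, hf⟩ := hSS Γ k (Eh M k) (rh M k) p L V hc hfix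
  refine ⟨v, hv, hv1, ?_⟩
  -- conjugates of the commutators fix f
  have hconj : ∀ x ∈ L, ∀ γ : Γ, rh M k (γ⁻¹ * (x⁻¹ * (v * x * v⁻¹)) * γ) f = f := by
    intro x hx γ
    obtain ⟨y, hy, u, hu, rfl⟩ := hc.gen γ
    have huL : ∀ z ∈ L, u⁻¹ * z * u ∈ L := by
      intro z hz
      have := hc.normal.conj_mem z hz u⁻¹
      rwa [inv_inv] at this
    have hvu : v * u = u * v := hc.ea.comm v hv u hu
    have h1 := hf (u⁻¹ * (x * y) * u) (huL _ (L.mul_mem hx hy))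
    have h2 := hf (u⁻¹ * y * u) (huL _ hy)
    have e : (y * u)⁻¹ * (x⁻¹ * (v * x * v⁻¹)) * (y * u) =
        ((u⁻¹ * (x * y) * u)⁻¹ * (v * (u⁻¹ * (x * y) * u) * v⁻¹)) *
          ((u⁻¹ * y * u)⁻¹ * (v * (u⁻¹ * y * u) * v⁻¹))⁻¹ := by
      have hv' : v * u⁻¹ = u⁻¹ * v := by
        rw [eq_inv_mul_iff_mul_eq, ← mul_assoc, ← hvu, mul_inv_cancel_right]
      have hv'' : u * v⁻¹ = v⁻¹ * u := by
        rw [eq_inv_mul_iff_mul_eq, ← mul_assoc, hvu, mul_inv_cancel_right]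
      have a1 : ∀ z : Γ, (u⁻¹ * z * u)⁻¹ * (v * (u⁻¹ * z * u) * v⁻¹) =
          u⁻¹ * (z⁻¹ * (v * z * v⁻¹)) * u := by
        intro z
        calc (u⁻¹ * z * u)⁻¹ * (v * (u⁻¹ * z * u) * v⁻¹)
            = u⁻¹ * z⁻¹ * u * ((v * u⁻¹) * z * (u * v⁻¹)) := by group
          _ = u⁻¹ * z⁻¹ * u * ((u⁻¹ * v) * z * (v⁻¹ * u)) := by rw [hv', hv'']
          _ = u⁻¹ * (z⁻¹ * (v * z * v⁻¹)) * u := by group
      rw [a1, a1]
      group
    rw [e, map_mul]
    have h3 : rh M k ((u⁻¹ * y * u)⁻¹ * (v * (u⁻¹ * y * u) * v⁻¹))⁻¹ f = f := by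
      conv_lhs => rw [← h2]
      rw [← Module.End.mul_apply, ← map_mul, inv_mul_cancel, map_one]
      rfl
    rw [Module.End.mul_apply, h3, h1]
  -- the subgroup T
  obtain ⟨T, hTmem⟩ : ∃ T : Subgroup Γ, ∀ g : Γ, g ∈ T ↔ ∃ hg : g ∈ M, ∀ γ : Γ,
      f.1 (MulAut.conjNormal γ⁻¹ ⟨g, hg⟩) = 0 := ⟨
    { carrier := {g | ∃ hg : g ∈ M, ∀ γ : Γ, f.1 (MulAut.conjNormal γ⁻¹ ⟨g, hg⟩) = 0}
      one_mem' := ⟨M.one_mem, fun γ => by
        have : (⟨1, M.one_mem⟩ : M) = 1 := rfl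
        rw [this, map_one, Eh_one]⟩
      mul_mem' := by
        rintro a b ⟨ha, ha'⟩ ⟨hb, hb'⟩
        refine ⟨M.mul_mem ha hb, fun γ => ?_⟩
        have : (⟨a * b, M.mul_mem ha hb⟩ : M) = ⟨a, ha⟩ * ⟨b, hb⟩ := rfl
        rw [this, map_mul, f.2, ha', hb', add_zero]
      inv_mem' := by
        rintro a ⟨ha, ha'⟩
        refine ⟨M.inv_mem ha, fun γ => ?_⟩
        have : (⟨a⁻¹, M.inv_mem ha⟩ : M) = ⟨a, ha⟩⁻¹ := rfl
        rw [this, map_inv, Eh_inv, ha', neg_zero] }, fun g => Iff.rfl⟩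
  have hTn : T.Normal := by
    refine ⟨fun g hg δ => ?_⟩
    obtain ⟨hg, hg'⟩ := (hTmem g).1 hg
    refine (hTmem _).2 ⟨hMn.conj_mem g hg δ, fun γ => ?_⟩
    have : (⟨δ * g * δ⁻¹, hMn.conj_mem g hg δ⟩ : M) = MulAut.conjNormal δ ⟨g, hg⟩ :=
      Subtype.ext (by rw [MulAut.conjNormal_apply])
    rw [this, ← MulAut.mul_apply, ← map_mul]
    have h2 := hg' (γ⁻¹ * δ)⁻¹
    rwa [inv_inv] at h2
  have hTM : T ≤ M := fun g hg => ((hTmem g).1 hg).1
  have hTbot : T = ⊥ := by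
    rcases hmin T hTn hTM with h | h
    · exact h
    · exfalso
      apply hf0
      apply Subtype.ext
      funext m
      have h1 : (m : Γ) ∈ T := h ▸ m.2
      obtain ⟨hm, hm'⟩ := (hTmem _).1 h1
      have h2 := hm' 1
      rw [inv_one, map_one] at h2
      exact h2
  intro x hx m hm
  set c : Γ := x⁻¹ * (v * x * v⁻¹) with hcdef
  have hcm : c * m * c⁻¹ ∈ M := hMn.conj_mem m hm c
  have hmem : m⁻¹ * (c * m * c⁻¹) ∈ T := by
    refine (hTmem _).2 ⟨M.mul_mem (M.inv_mem hm) hcm, fun γ => ?_⟩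
    have e1 : (⟨m⁻¹ * (c * m * c⁻¹), M.mul_mem (M.inv_mem hm) hcm⟩ : M) =
        (⟨m, hm⟩ : M)⁻¹ * MulAut.conjNormal c ⟨m, hm⟩ :=
      Subtype.ext (by rw [Subgroup.coe_mul, MulAut.conjNormal_apply]; rfl)
    rw [e1, map_mul, f.2, map_inv, Eh_inv]
    have e2 : (MulAut.conjNormal γ⁻¹) ((MulAut.conjNormal c) (⟨m, hm⟩ : M)) =
        MulAut.conjNormal (γ⁻¹ * c * γ) (MulAut.conjNormal γ⁻¹ ⟨m, hm⟩) := by
      rw [← MulAut.mul_apply, ← MulAut.mul_apply, ← map_mul, ← map_mul]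
      congr 2
      group
    have e3 : rh M k ((γ⁻¹ * c * γ)⁻¹) f = f := by
      have := hconj x hx γ
      conv_lhs => rw [← this]
      rw [← Module.End.mul_apply, ← map_mul, inv_mul_cancel, map_one]
      rfl
    have e4 : f.1 (MulAut.conjNormal (γ⁻¹ * c * γ) (MulAut.conjNormal γ⁻¹ (⟨m, hm⟩ : M))) =
        f.1 (MulAut.conjNormal γ⁻¹ (⟨m, hm⟩ : M)) := by
      have h := rh_apply M k ((γ⁻¹ * c * γ)⁻¹) f (MulAut.conjNormal γ⁻¹ (⟨m, hm⟩ : M))
      rw [e3, inv_inv] at h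
      exact h.symm
    rw [e2, e4]
    exact neg_add_cancel _
  rw [hTbot, Subgroup.mem_bot] at hmem
  have h1 : c * m * c⁻¹ = m := (inv_mul_eq_one.1 hmem).symm
  rwa [mul_inv_eq_iff_eq_mul] at h1

theorem t_CF (hSS : S_SS) (hHOMK : S_HOMK) : S_CF := by
  intro Γ _ _ p L V M hc hML hMn hMne hmin
  obtain ⟨hcomm, q, hq, hqM, f₀, hf₀, hf₀ne⟩ := hHOMK Γ L M hc.solv hML hMn hMne hmin
  exact aux hSS Γ p L V M hc hML hMn hmin hcomm q hq.out hqM (AlgebraicClosure (ZMod q)) f₀ hf₀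
    hf₀ne

end Run7.h559.NI
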